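import Pool.Agent.H31.BOU.Targets1
import Pool.Agent.H31.BOU.Targets2

/-! row BDN of MP_352bb5_an (board bou): boundary nodes of one block -/

namespace Pool.Agent.H38.BOU

open Finset Pool.Agent.H31.BOU

lemma geo2 (n : ℕ) : ∑ j ∈ range n, (2 : ℝ) ^ j = 2 ^ n - 1 := by
  induction n with
  | zero => simp
  | succ n ih =>
    rw [sum_range_succ, ih, pow_succ]
    ring

open Classical in
lemma count_bd (r i j : ℕ) (m : ℤ) (N : ℤ) (hj : j ≤ i) :
    ∑ κ ∈ Ico (0 : ℤ) N, (if meets r i m j κ ∧ ¬ long r i m j κ then (1 : ℝ) else 0) ≤ 4 * r := by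
  set L : ℤ := 2 ^ (i - j) with hL
  have hpow : (2 : ℤ) ^ i = L * 2 ^ j := by
    rw [hL, ← pow_add]
    congr 1
    omega
  have h2 : (0 : ℤ) < 2 ^ j := by positivity
  rw [← sum_filter, sum_const, nsmul_eq_mul, mul_one]
  have hsub : (Ico (0 : ℤ) N).filter (fun κ => meets r i m j κ ∧ ¬ long r i m j κ) ⊆
      Ioo (m * L - r) (m * L + r) ∪ Ioo ((m + 1) * L - r) ((m + 1) * L + r) := by
    intro κ hκ
    rw [mem_filter] at hκ
    obtain ⟨-, ⟨-, h3, h4⟩, h5⟩ := hκ
    rw [hpow, ← mul_assoc] at h3 h4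
    have h3' : m * L < κ + r := lt_of_mul_lt_mul_right h3 h2.le
    have h4' : κ - r < (m + 1) * L := lt_of_mul_lt_mul_right h4 h2.le
    rw [mem_union, mem_Ioo, mem_Ioo]
    by_cases h6 : κ - r < m * L
    · left
      constructor <;> linarith
    · right
      push Not at h6
      by_contra h7
      apply h5
      refine ⟨?_, ?_⟩
      · rw [hpow, ← mul_assoc]
        exact mul_le_mul_of_nonneg_right h6 h2.le
      · rw [hpow, ← mul_assoc]
        refine mul_le_mul_of_nonneg_right ?_ h2.le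
        by_contra h8
        push Not at h8
        exact h7 ⟨by linarith, by linarith⟩
  have hc : ((Ico (0 : ℤ) N).filter (fun κ => meets r i m j κ ∧ ¬ long r i m j κ)).card ≤ 4 * r := by
    refine (card_le_card hsub).trans ((card_union_le _ _).trans ?_)
    rw [Int.card_Ioo, Int.card_Ioo]
    have e1 : (m * L + r - (m * L - r) - 1).toNat ≤ 2 * r := by
      rw [Int.toNat_le]
      push_cast
      linarith
    have e2 : ((m + 1) * L + r - ((m + 1) * L - r) - 1).toNat ≤ 2 * r := by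
      rw [Int.toNat_le]
      push_cast
      linarith
    omega
  calc (((Ico (0 : ℤ) N).filter (fun κ => meets r i m j κ ∧ ¬ long r i m j κ)).card : ℝ)
      ≤ ((4 * r : ℕ) : ℝ) := Nat.cast_le.2 hc
    _ = 4 * r := by push_cast; ring

theorem pf_BDN (hS : T_SQ) : T_BDN := by
  classical
  intro r J i m hi
  have key : ∀ j ∈ range (J + 1), (4 : ℝ) ^ j * ∑ p ∈ range (2 ^ (J - j)),
      ∑ s ∈ range (2 ^ (J - j)), (if meets r i m j ((p : ℤ) + s) ∧ ¬ long r i m j ((p : ℤ) + s)
        then (1 : ℝ) else 0) ≤ (if j ≤ i then (2 : ℝ) ^ J * 2 ^ j * (4 * (r : ℝ)) else 0 : ℝ) := by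
    intro j hj
    rw [mem_range] at hj
    by_cases hji : j ≤ i
    · rw [if_pos hji]
      have h1 := hS J j (fun κ => if meets r i m j κ ∧ ¬ long r i m j κ then (1 : ℝ) else 0)
        (by omega) (fun κ => by
          show (0 : ℝ) ≤ if meets r i m j κ ∧ ¬ long r i m j κ then (1 : ℝ) else 0
          split_ifs <;> norm_num)
      refine h1.trans ?_
      exact mul_le_mul_of_nonneg_left (count_bd r i j m _ hji) (by positivity)
    · rw [if_neg hji]
      have h1 : ∀ κ : ℤ, (if meets r i m j κ ∧ ¬ long r i m j κ then (1 : ℝ) else 0) = 0 := by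
        intro κ
        rw [if_neg]
        rintro ⟨⟨h, -⟩, -⟩
        exact hji h
      simp only [h1, sum_const_zero, mul_zero, le_refl]
  refine (sum_le_sum key).trans ?_
  rw [← sum_filter]
  have hsub : (range (J + 1)).filter (fun j => j ≤ i) ⊆ range (i + 1) := by
    intro j hj
    rw [mem_filter] at hj
    rw [mem_range]
    omega
  refine (sum_le_sum_of_subset_of_nonneg hsub fun j _ _ => by positivity).trans ?_
  rw [← sum_mul, ← mul_sum, geo2, pow_succ]
  have h1 : (0 : ℝ) ≤ 2 ^ J := by positivity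
  have h2 : (1 : ℝ) ≤ 2 ^ i := one_le_pow₀ (by norm_num)
  have h3 : (0 : ℝ) ≤ r := Nat.cast_nonneg r
  have h4 : (0 : ℝ) ≤ 2 ^ J * r := mul_nonneg h1 h3
  have h5 : (0 : ℝ) ≤ 2 ^ J * 2 ^ i := by positivity
  nlinarith

end Pool.Agent.H38.BOU
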