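import Pool.Agent.H31.BOU.Targets1
import Pool.Agent.H31.BOU.Targets2

/-! row STG of MP_352bb5_an (board bou): the stage theorem -/

namespace Pool.Agent.H38.BOU

open Finset Pool.Agent.H31.BOU

lemma vr_nonneg (hMG : T_MG) (G : ℤ → ℂ) (β : ℝ) (j : ℕ) (κ : ℤ) : 0 ≤ vr (ph G β) j κ := by
  unfold vr
  rw [hMG G β j κ]
  generalize ph G β j (2 * κ) = a
  generalize ph G β j (2 * κ + 1) = b
  generalize ph G β j (2 * κ + 2) = c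
  have h : ‖(a + 2 * b + c) / 4‖ ≤ (‖a‖ + 2 * ‖b‖ + ‖c‖) / 4 := by
    rw [norm_div]
    have h4 : ‖(4 : ℂ)‖ = 4 := by norm_num
    rw [h4]
    refine div_le_div_of_nonneg_right ?_ (by norm_num)
    refine (norm_add_le _ _).trans ?_
    refine add_le_add_left ((norm_add_le _ _).trans ?_) _
    rw [norm_mul]
    have h2 : ‖(2 : ℂ)‖ = 2 := by norm_num
    rw [h2]
  have h0 := norm_nonneg ((a + 2 * b + c) / 4)
  nlinarith [sq_nonneg (‖a‖ - ‖b‖), sq_nonneg (‖b‖ - ‖c‖), sq_nonneg (‖a‖ - ‖c‖), norm_nonneg a,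
    norm_nonneg b, norm_nonneg c]

lemma en1_nonneg (hMG : T_MG) {ι θ : Type} [Fintype ι] [Fintype θ] (C r : ℕ) (q σ : ℝ)
    (G : ℤ → ℂ) (Q : Fam θ) (P : Fam ι) (i : ι) (j : ℕ) (κ : ℤ) :
    0 ≤ en1 C r q σ G Q P i j κ := by
  classical
  have hv := vr_nonneg hMG G (P.be i) j κ
  unfold en1
  split_ifs <;> first | exact add_nonneg hv (by positivity) | positivity

lemma tbs_nonneg {ι θ : Type} [Fintype ι] [Fintype θ] (C r : ℕ) (q : ℝ) (Q : Fam θ) (P : Fam ι)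
    (j : ℕ) (κ : ℤ) : 0 ≤ tbs C r q Q P j κ := by
  classical
  unfold tbs
  refine sum_nonneg fun i _ => ?_
  split_ifs
  · exact norm_nonneg _
  · exact le_refl _

open Classical in
/-- the number of exceptional nodes -/
lemma exc_sum (T : ℕ) {ι θ : Type} [Fintype ι] [Fintype θ] (J : ℕ) (q : ℝ) (G : ℤ → ℂ)
    (Q : Fam θ) (P : Fam ι) (hq : 1 ≤ q) (A B : ℝ) (ex : ℕ → ℕ → ℕ → Prop)
    (hex : ∀ j p s : ℕ, ex j p s ↔ exc T q G Q P j ((p : ℤ) + s) ∨ j = J)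
    (hA : ∑ j ∈ range (J + 1), (4 : ℝ) ^ j * ∑ p ∈ range (2 ^ (J - j)),
      ∑ s ∈ range (2 ^ (J - j)), tbs (cc T) (rr T) q Q P j ((p : ℤ) + s) ≤ A)
    (hB : ∑ j ∈ range J, (4 : ℝ) ^ j * ∑ p ∈ range (2 ^ (J - j)), ∑ s ∈ range (2 ^ (J - j)),
      (if exc2 T q G Q P j ((p : ℤ) + s) then (1 : ℝ) else 0) ≤ B) :
    ∑ j ∈ range (J + 1), (4 : ℝ) ^ j * ∑ p ∈ range (2 ^ (J - j)),
      ∑ s ∈ range (2 ^ (J - j)), (if ex j p s then (1 : ℝ) else 0) ≤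
    A / q ^ 5 + B + 4 ^ J := by
  have hq5 : 0 < q ^ 5 := by positivity
  have h1 : (4 : ℝ) ^ J * ∑ p ∈ range (2 ^ (J - J)), ∑ s ∈ range (2 ^ (J - J)),
      (if ex J p s then (1 : ℝ) else 0) ≤ 4 ^ J := by
    have h11 : ∀ p s, ex J p s := fun p s => (hex J p s).2 (Or.inr rfl)
    simp [h11]
  have h2 : ∀ j ∈ range J, (4 : ℝ) ^ j * ∑ p ∈ range (2 ^ (J - j)),
      ∑ s ∈ range (2 ^ (J - j)), (if ex j p s then (1 : ℝ) else 0) ≤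
      ((4 : ℝ) ^ j * ∑ p ∈ range (2 ^ (J - j)),
        ∑ s ∈ range (2 ^ (J - j)), tbs (cc T) (rr T) q Q P j ((p : ℤ) + s)) / q ^ 5 +
      (4 : ℝ) ^ j * ∑ p ∈ range (2 ^ (J - j)), ∑ s ∈ range (2 ^ (J - j)),
        (if exc2 T q G Q P j ((p : ℤ) + s) then (1 : ℝ) else 0) := by
    intro j hj
    rw [mul_div_assoc, ← mul_add]
    refine mul_le_mul_of_nonneg_left ?_ (by positivity)
    rw [sum_div, ← sum_add_distrib]
    refine sum_le_sum fun p _ => ?_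
    rw [sum_div, ← sum_add_distrib]
    refine sum_le_sum fun s _ => ?_
    have hjJ : j ≠ J := by
      rw [mem_range] at hj
      omega
    have ht := tbs_nonneg (cc T) (rr T) q Q P j ((p : ℤ) + s)
    have ht' : 0 ≤ tbs (cc T) (rr T) q Q P j ((p : ℤ) + s) / q ^ 5 := div_nonneg ht hq5.le
    by_cases he2 : exc2 T q G Q P j ((p : ℤ) + s)
    · rw [if_pos he2]
      split_ifs
      · linarith
      · linarith
    · rw [if_neg he2, add_zero]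
      split_ifs with h
      · rcases (hex j p s).1 h with (h | h) | h
        · rw [le_div_iff₀ hq5, one_mul]
          exact h.le
        · exact absurd h he2
        · exact absurd h hjJ
      · exact ht'
  have h3 : ∑ j ∈ range J, (4 : ℝ) ^ j * ∑ p ∈ range (2 ^ (J - j)),
        ∑ s ∈ range (2 ^ (J - j)), tbs (cc T) (rr T) q Q P j ((p : ℤ) + s) ≤ A := by
    refine le_trans ?_ hA
    refine sum_le_sum_of_subset_of_nonneg (range_subset_range.2 (Nat.le_succ J)) fun j _ _ => ?_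
    refine mul_nonneg (by positivity) (sum_nonneg fun p _ => sum_nonneg fun s _ => ?_)
    exact tbs_nonneg _ _ _ _ _ _ _
  have h4 : (∑ j ∈ range J, (4 : ℝ) ^ j * ∑ p ∈ range (2 ^ (J - j)),
        ∑ s ∈ range (2 ^ (J - j)), tbs (cc T) (rr T) q Q P j ((p : ℤ) + s)) / q ^ 5 ≤ A / q ^ 5 :=
    div_le_div_of_nonneg_right h3 hq5.le
  rw [sum_range_succ]
  refine add_le_add ?_ h1
  refine (sum_le_sum h2).trans ?_
  rw [sum_add_distrib, ← sum_div]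
  exact add_le_add h4 hB

/-- chains: the last checkpoint above a node -/
lemma chain {ι : Type} [Fintype ι] (J : ℕ) (x : ℕ → ℕ → ℕ → EuclideanSpace ℂ ι)
    (ex : ℕ → ℕ → ℕ → Prop) (η : ℝ) (chk : ℕ → ℕ → ℕ → Prop)
    (ref : ℕ → ℕ → ℕ → EuclideanSpace ℂ ι)
    (h1 : ∀ p q, chk J p q) (h2 : ∀ j p q, chk j p q → ref j p q = x j p q)
    (h3 : ∀ j < J, ∀ p q, ¬ chk j p q → ref j p q = ref (j + 1) (p / 2) (q / 2) ∧
      ‖x j p q - ref j p q‖ < η ∧ ¬ ex j p q ∧ ¬ ex (j + 1) (p / 2) (q / 2)) (a b : ℕ) :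
    ∀ d j : ℕ, j + d = J → ∃ j', j ≤ j' ∧ j' ≤ J ∧ chk j' (a / 2 ^ j') (b / 2 ^ j') ∧
      ref j (a / 2 ^ j) (b / 2 ^ j) = x j' (a / 2 ^ j') (b / 2 ^ j') ∧
      (j' = j ∨ (‖x j (a / 2 ^ j) (b / 2 ^ j) - x j' (a / 2 ^ j') (b / 2 ^ j')‖ < η ∧
        ¬ ex j (a / 2 ^ j) (b / 2 ^ j) ∧ ¬ ex j' (a / 2 ^ j') (b / 2 ^ j'))) := by
  intro d
  induction d with
  | zero =>
    intro j hj
    rw [add_zero] at hj
    subst hj
    exact ⟨j, le_refl _, le_refl _, h1 _ _, h2 _ _ _ (h1 _ _), Or.inl rfl⟩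
  | succ d ih =>
    intro j hj
    by_cases hc : chk j (a / 2 ^ j) (b / 2 ^ j)
    · exact ⟨j, le_refl _, by omega, hc, h2 _ _ _ hc, Or.inl rfl⟩
    · obtain ⟨e1, e2, e3, e4⟩ := h3 j (by omega) _ _ hc
      obtain ⟨j', f1, f2, f3, f4, f5⟩ := ih (j + 1) (by omega)
      have ea : a / 2 ^ j / 2 = a / 2 ^ (j + 1) := by rw [Nat.div_div_eq_div_mul, pow_succ]
      have eb : b / 2 ^ j / 2 = b / 2 ^ (j + 1) := by rw [Nat.div_div_eq_div_mul, pow_succ]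
      rw [ea, eb] at e1 e4
      refine ⟨j', by omega, f2, f3, e1.trans f4, Or.inr ⟨?_, e3, ?_⟩⟩
      · rw [← f4, ← e1]
        exact e2
      · rcases f5 with f5 | f5
        · rw [f5]
          exact e4
        · exact f5.2.2

lemma node_lo (a b j : ℕ) :
    (((a / 2 ^ j : ℕ) : ℤ) + ((b / 2 ^ j : ℕ) : ℤ)) * 2 ^ j ≤ (a : ℤ) + b := by
  have h1 : a / 2 ^ j * 2 ^ j ≤ a := Nat.div_mul_le_self _ _
  have h2 : b / 2 ^ j * 2 ^ j ≤ b := Nat.div_mul_le_self _ _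
  have h3 : (a / 2 ^ j + b / 2 ^ j) * 2 ^ j ≤ a + b := by
    rw [add_mul]
    omega
  exact_mod_cast h3

lemma node_hi (a b j : ℕ) :
    (a : ℤ) + b < (((a / 2 ^ j : ℕ) : ℤ) + ((b / 2 ^ j : ℕ) : ℤ) + 2) * 2 ^ j := by
  have hp : 0 < 2 ^ j := by positivity
  have h1 : a < (a / 2 ^ j + 1) * 2 ^ j := by
    rw [add_mul, one_mul]
    exact Nat.lt_div_mul_add hp
  have h2 : b < (b / 2 ^ j + 1) * 2 ^ j := by
    rw [add_mul, one_mul]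
    exact Nat.lt_div_mul_add hp
  have h3 : a + b < (a / 2 ^ j + b / 2 ^ j + 2) * 2 ^ j := by
    have : (a / 2 ^ j + b / 2 ^ j + 2) * 2 ^ j = (a / 2 ^ j + 1) * 2 ^ j + (b / 2 ^ j + 1) * 2 ^ j := by
      ring
    rw [this]
    omega
  exact_mod_cast h3

lemma node_sub (a b j j' : ℕ) (h : j ≤ j') :
    (((a / 2 ^ j' : ℕ) : ℤ) + ((b / 2 ^ j' : ℕ) : ℤ)) * 2 ^ j' ≤
      (((a / 2 ^ j : ℕ) : ℤ) + ((b / 2 ^ j : ℕ) : ℤ)) * 2 ^ j ∧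
    (((a / 2 ^ j : ℕ) : ℤ) + ((b / 2 ^ j : ℕ) : ℤ) + 2) * 2 ^ j ≤
      (((a / 2 ^ j' : ℕ) : ℤ) + ((b / 2 ^ j' : ℕ) : ℤ) + 2) * 2 ^ j' := by
  obtain ⟨d, rfl⟩ := Nat.exists_eq_add_of_le h
  have key : ∀ x : ℕ, x / 2 ^ (j + d) * 2 ^ (j + d) ≤ x / 2 ^ j * 2 ^ j ∧
      (x / 2 ^ j + 1) * 2 ^ j ≤ (x / 2 ^ (j + d) + 1) * 2 ^ (j + d) := by
    intro x
    have e1 : x / 2 ^ (j + d) = x / 2 ^ j / 2 ^ d := by rw [pow_add, Nat.div_div_eq_div_mul]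
    have e2 : (2 : ℕ) ^ (j + d) = 2 ^ d * 2 ^ j := by rw [pow_add, mul_comm]
    rw [e1]
    generalize x / 2 ^ j = y
    rw [e2, ← mul_assoc, ← mul_assoc]
    have hp : 0 < 2 ^ d := by positivity
    constructor
    · exact Nat.mul_le_mul_right _ (Nat.div_mul_le_self _ _)
    · refine Nat.mul_le_mul_right _ ?_
      have : y < y / 2 ^ d * 2 ^ d + 2 ^ d := Nat.lt_div_mul_add hp
      rw [add_mul, one_mul]
      omega
  obtain ⟨a1, a2⟩ := key a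
  obtain ⟨b1, b2⟩ := key b
  constructor
  · have : (a / 2 ^ (j + d) + b / 2 ^ (j + d)) * 2 ^ (j + d) ≤ (a / 2 ^ j + b / 2 ^ j) * 2 ^ j := by
      rw [add_mul, add_mul]
      omega
    exact_mod_cast this
  · have : (a / 2 ^ j + b / 2 ^ j + 2) * 2 ^ j ≤
        (a / 2 ^ (j + d) + b / 2 ^ (j + d) + 2) * 2 ^ (j + d) := by
      have e3 : (a / 2 ^ j + b / 2 ^ j + 2) * 2 ^ j =
        (a / 2 ^ j + 1) * 2 ^ j + (b / 2 ^ j + 1) * 2 ^ j := by ring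
      have e4 : (a / 2 ^ (j + d) + b / 2 ^ (j + d) + 2) * 2 ^ (j + d) =
        (a / 2 ^ (j + d) + 1) * 2 ^ (j + d) + (b / 2 ^ (j + d) + 1) * 2 ^ (j + d) := by ring
      rw [e3, e4]
      omega
    exact_mod_cast this

lemma sqrt_div (q : ℝ) (hq : 1 ≤ q) : Real.sqrt q * (1 / q ^ 2) ≤ 1 / q := by
  have hq0 : 0 < q := by linarith
  have h1 : Real.sqrt q ≤ q := by
    rw [Real.sqrt_le_left hq0.le]
    nlinarith
  calc Real.sqrt q * (1 / q ^ 2) ≤ q * (1 / q ^ 2) :=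
        mul_le_mul_of_nonneg_right h1 (by positivity)
    _ = 1 / q := by field_simp

theorem pf_STG (hJL : T_JL) (hMG : T_MG) (hSTP : T_STP) (hENS : T_ENS) (hTY2 : T_TY2)
    (hTBS : T_TBS) (hBAD : T_BAD) (hUNI : T_UNI) (hNF : T_NF) (hMTD : T_MTD) (hALB : T_ALB) :
    T_STG := by
  classical
  intro T
  obtain ⟨Cnf, hCnf, HNF⟩ := hNF T
  obtain ⟨Calb, hCalb, HALB⟩ := hALB T
  obtain ⟨Cens, hCens, HENS⟩ := hENS T
  obtain ⟨Cty, hCty, HTY⟩ := hTY2 T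
  obtain ⟨Ctb, hCtb, HTB⟩ := hTBS T
  obtain ⟨Cbad, hCbad, HBAD⟩ := hBAD T
  obtain ⟨Cuni, hCuni, HUNI⟩ := hUNI T
  set C1 : ℝ := 3 + 2 * Ctb + 2 * Cty + Cens * Calb ^ 2 with hC1
  have hC1pos : 0 < C1 := by positivity
  refine ⟨4 * Cnf + 3 + Cbad + Cuni * C1, by positivity, ?_⟩
  intro ι θ _ _ J q G Q P hyp
  have hq : 1 ≤ q := hyp.q1
  have hq0 : 0 < q := by linarith
  have hσ : 0 ≤ Calb / q ^ 7 := by positivity
  have hal1 : ∀ (i : ι) (j : ℕ) (κ : ℤ), alive (cc T) (rr T) q Q P i j κ →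
      ‖ph G (P.be i) j κ‖ ≤ Calb / q ^ 7 := fun i j κ h =>
    (HALB ι θ J q G Q P hyp (cc T) (rr T) (Or.inl ⟨rfl, rfl⟩) i j κ).1 h.1 h.2.1 h.2.2
  have hal2 : ∀ (i : ι) (j : ℕ) (κ : ℤ), ∀ b : ℤ, 0 ≤ b → b ≤ 2 →
      alive (cc T) (rr T) q Q P i (j + 1) κ →
      ‖ph G (P.be i) j (2 * κ + b)‖ ≤ Calb / q ^ 7 := fun i j κ b h0 h2 h =>
    (HALB ι θ J q G Q P hyp (cc T) (rr T) (Or.inl ⟨rfl, rfl⟩) i j κ).2 b h0 h2 h.1 h.2.1 h.2.2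
  have hJLa := hJL ι J (fun j p s => xv (cc T) (rr T) q Q P G j ((p : ℤ) + s))
    (fun j p s => exc T q G Q P j ((p : ℤ) + s) ∨ j = J)
    (fun j p s => ∑ i, en1 (cc T) (rr T) q (Calb / q ^ 7) G Q P i j ((p : ℤ) + s))
    (1 / q ^ 2) (fun y => ∀ i, ‖y i‖ ≤ Calb / q ^ 7) (by positivity)
    (by
      intro j p s i
      show ‖(if alive (cc T) (rr T) q Q P i j ((p : ℤ) + s) then
        ph G (P.be i) j ((p : ℤ) + s) else 0)‖ ≤ _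
      split_ifs with h
      · exact hal1 i j _ h
      · rw [norm_zero]
        exact hσ)
    (fun j p s => sum_nonneg fun i _ => en1_nonneg hMG _ _ _ _ _ _ _ _ _ _)
    (fun j _ p _ s _ y hy => hSTP ι θ (cc T) (rr T) q (Calb / q ^ 7) G Q P hσ hal1 j p s y hy)
  obtain ⟨chk, ref, c1, c2, c3, c4⟩ := hJLa
  have hE := exc_sum T J q G Q P hq _ _
    (fun j p s => exc T q G Q P j ((p : ℤ) + s) ∨ j = J) (fun _ _ _ => Iff.rfl)
    (HTB ι θ J q G Q P hyp) (HTY ι θ J q G Q P hyp)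
  have hEn := HENS ι θ J q G Q P (Calb / q ^ 7) hyp hσ
    (fun i j κ => ⟨hal1 i j κ, fun b h0 h2 h => hal2 i j κ b h0 h2 h⟩)
  -- the number of checkpoints
  have hN : ∑ j ∈ range (J + 1), (4 : ℝ) ^ j * ∑ p ∈ range (2 ^ (J - j)),
      ∑ s ∈ range (2 ^ (J - j)), (if chk j p s then 1 else 0) ≤ C1 * q ^ 54 * 4 ^ J := by
    refine c4.trans ?_
    have h4 : (0 : ℝ) < 4 ^ J := by positivity
    have g1 : Ctb * q ^ 32 * 4 ^ J / q ^ 5 ≤ Ctb * q ^ 54 * 4 ^ J := by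
      rw [div_le_iff₀ (by positivity)]
      have : q ^ 32 ≤ q ^ 54 * q ^ 5 := by
        rw [← pow_add]
        exact pow_le_pow_right₀ hq (by norm_num)
      calc Ctb * q ^ 32 * 4 ^ J ≤ Ctb * (q ^ 54 * q ^ 5) * 4 ^ J := by gcongr
        _ = _ := by ring
    have g2 : (4 : ℝ) ^ J ≤ q ^ 54 * 4 ^ J := by
      have : (1 : ℝ) ≤ q ^ 54 := one_le_pow₀ hq
      nlinarith
    have g3 : 1 / (1 / q ^ 2) ^ 2 * (Cens * (Calb / q ^ 7) ^ 2 * q ^ 64 * 4 ^ J) =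
        Cens * Calb ^ 2 * (q ^ 54 * 4 ^ J) := by
      field_simp
    have g4 : 1 / (1 / q ^ 2) ^ 2 * (∑ j ∈ range J, (4 : ℝ) ^ (j + 1) *
        ∑ p ∈ range (2 ^ (J - (j + 1))), ∑ s ∈ range (2 ^ (J - (j + 1))),
          ∑ i, en1 (cc T) (rr T) q (Calb / q ^ 7) G Q P i j ((p : ℤ) + s)) ≤
        Cens * Calb ^ 2 * (q ^ 54 * 4 ^ J) := by
      rw [← g3]
      exact mul_le_mul_of_nonneg_left hEn (by positivity)
    have g5 : C1 * q ^ 54 * 4 ^ J = 3 * (q ^ 54 * 4 ^ J) + 2 * (Ctb * q ^ 54 * 4 ^ J) +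
        2 * (Cty * q ^ 54 * 4 ^ J) + Cens * Calb ^ 2 * (q ^ 54 * 4 ^ J) := by
      rw [hC1]
      ring
    rw [g5]
    linarith
  have hU := HUNI ι θ J q G Q P chk hyp
  have hB := HBAD ι θ J q G Q P hyp
  have hU2 : Cuni / q ^ 60 * (C1 * q ^ 54 * 4 ^ J) ≤ Cuni * C1 / q * 4 ^ J := by
    have : Cuni / q ^ 60 * (C1 * q ^ 54 * 4 ^ J) = Cuni * C1 / q ^ 6 * 4 ^ J := by
      field_simp
    rw [this]
    have h6 : q ≤ q ^ 6 := by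
      calc q = q ^ 1 := (pow_one q).symm
        _ ≤ q ^ 6 := pow_le_pow_right₀ hq (by norm_num)
    have : Cuni * C1 / q ^ 6 ≤ Cuni * C1 / q := div_le_div_of_nonneg_left (by positivity) hq0 h6
    exact mul_le_mul_of_nonneg_right this (by positivity)
  have hU3 := hU.trans ((mul_le_mul_of_nonneg_left hN (by positivity)).trans hU2)
  refine le_trans (Nat.cast_le.2 (card_le_card (?_ : _ ⊆
    ((range (2 ^ J) ×ˢ range (2 ^ J)).filter (fun ab : ℕ × ℕ =>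
      ∃ j ≤ J, chk j (ab.1 / 2 ^ j) (ab.2 / 2 ^ j) ∧
      Good (cc T) q Q P j (((ab.1 / 2 ^ j : ℕ) : ℤ) + ((ab.2 / 2 ^ j : ℕ) : ℤ)) ∧
      ∃ t ≤ T, 1 / q < ‖DD (P.str j) G j (((ab.1 / 2 ^ j : ℕ) : ℤ) + ((ab.2 / 2 ^ j : ℕ) : ℤ)) t
        ((ab.1 : ℤ) + ab.2)‖)) ∪
    ((range (2 ^ J) ×ˢ range (2 ^ J)).filter (fun ab : ℕ × ℕ =>
      ∃ j ≤ J, ¬ Good (cc T) q Q P j (((ab.1 / 2 ^ j : ℕ) : ℤ) + ((ab.2 / 2 ^ j : ℕ) : ℤ))))))) ?_
  · intro ab hab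
    rw [mem_filter] at hab
    obtain ⟨hab, j, hj, t, ht, hbig⟩ := hab
    rw [mem_union, mem_filter, mem_filter]
    by_contra hcon
    push Not at hcon
    obtain ⟨hcon1, hcon2⟩ := hcon
    have hgood := hcon2 hab
    have hsmall := hcon1 hab
    obtain ⟨d, hd⟩ := Nat.exists_eq_add_of_le hj
    obtain ⟨j', f1, f2, f3, -, f5⟩ := chain J _ _ _ chk ref c1 c2 c3 ab.1 ab.2 d j hd.symm
    have hcp := hsmall j' f2 f3 (hgood j' f2)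
    have h1q : 1 / q ≤ (4 * Cnf + 3 + Cbad + Cuni * C1) / q := by
      refine div_le_div_of_nonneg_right ?_ hq0.le
      have : 0 < Cuni * C1 := by positivity
      linarith
    rcases f5 with f5 | ⟨f5, f6, f7⟩
    · subst f5
      have := hcp t ht
      linarith
    · have f6a : tbs (cc T) (rr T) q Q P j (((ab.1 / 2 ^ j : ℕ) : ℤ) + ((ab.2 / 2 ^ j : ℕ) : ℤ)) ≤
          q ^ 5 := by
        by_contra h
        push Not at h
        exact f6 (Or.inl (Or.inl h))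
      have f6b : ¬ exc2 T q G Q P j (((ab.1 / 2 ^ j : ℕ) : ℤ) + ((ab.2 / 2 ^ j : ℕ) : ℤ)) :=
        fun h => f6 (Or.inl (Or.inr h))
      have f7a : tbs (cc T) (rr T) q Q P j' (((ab.1 / 2 ^ j' : ℕ) : ℤ) +
          ((ab.2 / 2 ^ j' : ℕ) : ℤ)) ≤ q ^ 5 := by
        by_contra h
        push Not at h
        exact f7 (Or.inl (Or.inl h))
      have N1 := HNF ι θ J q G Q P hyp j' (((ab.1 / 2 ^ j' : ℕ) : ℤ) + ((ab.2 / 2 ^ j' : ℕ) : ℤ)) 0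
        ((ab.1 : ℤ) + ab.2) f2 (Nat.zero_le _) (node_lo _ _ _) (node_hi _ _ _) (hgood j' f2)
      have N2 := HNF ι θ J q G Q P hyp j (((ab.1 / 2 ^ j : ℕ) : ℤ) + ((ab.2 / 2 ^ j : ℕ) : ℤ)) t
        ((ab.1 : ℤ) + ab.2) hj ht (node_lo _ _ _) (node_hi _ _ _) (hgood j hj)
      obtain ⟨M1, M2⟩ := hMTD ι θ T q G Q P hq j j'
        (((ab.1 / 2 ^ j : ℕ) : ℤ) + ((ab.2 / 2 ^ j : ℕ) : ℤ))
        (((ab.1 / 2 ^ j' : ℕ) : ℤ) + ((ab.2 / 2 ^ j' : ℕ) : ℤ)) ((ab.1 : ℤ) + ab.2) f1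
        (node_sub _ _ _ _ f1).1 (node_sub _ _ _ _ f1).2 (hgood j hj)
      have M2' := M2 t ht f6b
      have hsq := sqrt_div q hq
      have M1' : Real.sqrt q * ‖xv (cc T) (rr T) q Q P G j
          (((ab.1 / 2 ^ j : ℕ) : ℤ) + ((ab.2 / 2 ^ j : ℕ) : ℤ)) - xv (cc T) (rr T) q Q P G j'
          (((ab.1 / 2 ^ j' : ℕ) : ℤ) + ((ab.2 / 2 ^ j' : ℕ) : ℤ))‖ ≤ 1 / q :=
        (mul_le_mul_of_nonneg_left f5.le (Real.sqrt_nonneg q)).trans hsq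
      have hnf : ∀ y : ℝ, y ≤ q ^ 5 → Cnf / q + Cnf / q ^ 6 * y ≤ 2 * Cnf * (1 / q) := by
        intro y hy
        have : Cnf / q ^ 6 * y ≤ Cnf / q ^ 6 * q ^ 5 :=
          mul_le_mul_of_nonneg_left hy (by positivity)
        have e : Cnf / q ^ 6 * q ^ 5 = Cnf * (1 / q) := by field_simp
        have e2 : Cnf / q = Cnf * (1 / q) := by ring
        rw [e] at this
        rw [e2]
        linarith
      have N1' := N1.trans (hnf _ f7a)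
      have N2' := N2.trans (hnf _ f6a)
      have M1'' := M1.trans M1'
      have M2'' := M2'.trans hsq
      have hc0 := hcp 0 (Nat.zero_le _)
      have hbig' : (4 * Cnf + 3) * (1 / q) <
          ‖DD (P.str j) G j (((ab.1 / 2 ^ j : ℕ) : ℤ) + ((ab.2 / 2 ^ j : ℕ) : ℤ)) t
            ((ab.1 : ℤ) + ab.2)‖ := by
        refine lt_of_le_of_lt ?_ hbig
        rw [div_eq_mul_one_div (4 * Cnf + 3 + Cbad + Cuni * C1) q]
        refine mul_le_mul_of_nonneg_right ?_ (by positivity)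
        have : 0 < Cuni * C1 := by positivity
        linarith
      revert N1' N2' M1'' M2'' hc0 hbig'
      generalize DD (P.str j) G j (((ab.1 / 2 ^ j : ℕ) : ℤ) + ((ab.2 / 2 ^ j : ℕ) : ℤ)) t
            ((ab.1 : ℤ) + ab.2) = D1
      generalize DD (P.str j') G j' (((ab.1 / 2 ^ j' : ℕ) : ℤ) + ((ab.2 / 2 ^ j' : ℕ) : ℤ)) 0
            ((ab.1 : ℤ) + ab.2) = D2
      generalize MT (cc T) (rr T) q G Q P j (((ab.1 / 2 ^ j : ℕ) : ℤ) +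
            ((ab.2 / 2 ^ j : ℕ) : ℤ)) t ((ab.1 : ℤ) + ab.2) = X1
      generalize MT (cc T) (rr T) q G Q P j (((ab.1 / 2 ^ j : ℕ) : ℤ) +
            ((ab.2 / 2 ^ j : ℕ) : ℤ)) 0 ((ab.1 : ℤ) + ab.2) = X2
      generalize MT (cc T) (rr T) q G Q P j' (((ab.1 / 2 ^ j' : ℕ) : ℤ) +
            ((ab.2 / 2 ^ j' : ℕ) : ℤ)) 0 ((ab.1 : ℤ) + ab.2) = X3
      intro N1' N2' M1'' M2'' hc0 hbig'
      have t1 : ‖D1‖ ≤ ‖D1 - X1‖ + ‖X1 - X2‖ + ‖X2 - X3‖ + ‖D2 - X3‖ + ‖D2‖ := by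
        have e : D1 = (D1 - X1) + (X1 - X2) + (X2 - X3) - (D2 - X3) + D2 := by ring
        calc ‖D1‖ = ‖(D1 - X1) + (X1 - X2) + (X2 - X3) - (D2 - X3) + D2‖ := by rw [← e]
          _ ≤ ‖(D1 - X1) + (X1 - X2) + (X2 - X3) - (D2 - X3)‖ + ‖D2‖ := norm_add_le _ _
          _ ≤ (‖(D1 - X1) + (X1 - X2) + (X2 - X3)‖ + ‖D2 - X3‖) + ‖D2‖ := by
            gcongr
            exact norm_sub_le _ _
          _ ≤ ((‖(D1 - X1) + (X1 - X2)‖ + ‖X2 - X3‖) + ‖D2 - X3‖) + ‖D2‖ := by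
            gcongr
            exact norm_add_le _ _
          _ ≤ _ := by
            gcongr
            exact norm_add_le _ _
      linarith
  · have hcu := card_union_le
      ((range (2 ^ J) ×ˢ range (2 ^ J)).filter (fun ab : ℕ × ℕ =>
      ∃ j ≤ J, chk j (ab.1 / 2 ^ j) (ab.2 / 2 ^ j) ∧
      Good (cc T) q Q P j (((ab.1 / 2 ^ j : ℕ) : ℤ) + ((ab.2 / 2 ^ j : ℕ) : ℤ)) ∧
      ∃ t ≤ T, 1 / q < ‖DD (P.str j) G j (((ab.1 / 2 ^ j : ℕ) : ℤ) + ((ab.2 / 2 ^ j : ℕ) : ℤ)) t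
        ((ab.1 : ℤ) + ab.2)‖))
      ((range (2 ^ J) ×ˢ range (2 ^ J)).filter (fun ab : ℕ × ℕ =>
      ∃ j ≤ J, ¬ Good (cc T) q Q P j (((ab.1 / 2 ^ j : ℕ) : ℤ) + ((ab.2 / 2 ^ j : ℕ) : ℤ))))
    refine (Nat.cast_le.2 hcu).trans ?_
    rw [Nat.cast_add]
    have e : (4 * Cnf + 3 + Cbad + Cuni * C1) / q * 4 ^ J =
        (4 * Cnf + 3) / q * 4 ^ J + Cbad / q * 4 ^ J + Cuni * C1 / q * 4 ^ J := by ring
    have e0 : 0 ≤ (4 * Cnf + 3) / q * 4 ^ J := by positivity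
    rw [e]
    linarith

end Pool.Agent.H38.BOU
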